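import Pool.Agent.TH131.Kah.Defs

/-!
# Asymptotic abundance for compact Kähler manifolds: definitions
-/

set_option autoImplicit false

namespace Pool.Agent.TH613.AA

open Pool.Agent.TH131.Kah

/-- The Kodaira dimension of `X` is not `-∞`, and it is at least the real number `r`. -/
def KodGe (D : Manifolds) (X : D.M) (r : ℝ) : Prop :=
  ∃ k : ℕ, r ≤ k ∧ Grows (D.P X) k

/-- Iitaka's theorem: either all plurigenera of `X` are zero, or they grow like a power of `m`. -/
def IitakaTheorem (D : Manifolds) : Prop :=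
  ∀ X : D.M, (∀ m : ℕ, 1 ≤ m → D.P X m = 0) ∨
    ∃ k : ℕ, Grows (D.P X) k ∧ ∃ A : ℝ, ∀ m : ℕ, 1 ≤ m → (D.P X m : ℝ) ≤ A * (m : ℝ) ^ k

/-- Elementary facts on the dimension and the numerical dimension, and the existence of a curve of
genus two. -/
structure Curve (D : Manifolds) (pr : Products D) where
  dim_prod : ∀ X Y : D.M, D.dim (pr.prod X Y) = D.dim X + D.dim Y
  nu_le : ∀ X : D.M, D.IsNef X → D.nu X ≤ D.dim X
  /-- a curve of genus two -/
  curve : D.M
  dim_curve : D.dim curve = 1
  nef_curve : D.IsNef curve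
  nu_curve : D.nu curve = 1
  plurigenus_curve : ∀ m : ℕ, 2 ≤ m → D.P curve m = 2 * m - 1

end Pool.Agent.TH613.AA
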