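import Pool.Agent.TH131.Kah.Main
import Pool.Agent.TH613.AA.Defs

/-!
# Asymptotic abundance for compact Kähler manifolds
-/

set_option autoImplicit false

namespace Pool.Agent.TH613.AA

open Pool.Agent.TH131.Kah

variable {D : Manifolds}

/-- The product `X × ⋯ × X` with `a + 1` factors. -/
def pow (pr : Products D) (X : D.M) : ℕ → D.M
  | 0 => X
  | a + 1 => pr.prod (pow pr X a) X

lemma P_pow (pr : Products D) (X : D.M) (a m : ℕ) : D.P (pow pr X a) m = D.P X m ^ (a + 1) := by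
  induction a with
  | zero => simp [pow]
  | succ a ih => rw [pow, pr.plurigenus, ih, ← pow_succ]

lemma nef_pow (pr : Products D) {X : D.M} (hX : D.IsNef X) (a : ℕ) : D.IsNef (pow pr X a) := by
  induction a with
  | zero => exact hX
  | succ a ih => exact pr.nef _ _ ih hX

lemma nu_pow (pr : Products D) {X : D.M} (hX : D.IsNef X) (a : ℕ) :
    D.nu (pow pr X a) = (a + 1) * D.nu X := by
  induction a with
  | zero => simp [pow]
  | succ a ih => rw [pow, pr.nu _ _ (nef_pow pr hX a) hX, ih]; ring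

lemma dim_pow {pr : Products D} (ex : Curve D pr) (X : D.M) (a : ℕ) :
    D.dim (pow pr X a) = (a + 1) * D.dim X := by
  induction a with
  | zero => simp [pow]
  | succ a ih => rw [pow, ex.dim_prod, ih]; ring

/-- If a product of copies of `X` and of curves of genus two has Kodaira dimension close to the
numerical dimension, then abundance holds for `X`. -/
lemma grows_of_prod (hI : IitakaTheorem D) {pr : Products D} (ex : Curve D pr) {X : D.M}
    (a N : ℕ) {r : ℝ} (h : KodGe D (pr.prod (pow pr X a) (pow pr ex.curve N)) r)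
    (hr : ((a : ℝ) + 1) * ((D.nu X : ℝ) - 1) + ((N : ℝ) + 1) < r) :
    Grows (D.P X) (D.nu X) := by
  obtain ⟨k, hk, c, hc, l, hl, hm⟩ := h
  simp only [pr.plurigenus, P_pow] at hm
  rcases hI X with h0 | ⟨κ, hκ, A, hA⟩
  · exfalso
    have h1 := hm 1 le_rfl
    rw [h0 (l * 1) (by omega), zero_pow (by omega), zero_mul] at h1
    simp only [Nat.cast_one, one_pow, mul_one, Nat.cast_zero] at h1
    linarith
  · apply hκ.mono
    by_contra hlt
    rw [not_le] at hlt
    set j : ℕ := κ * (a + 1) + (N + 1) with hj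
    -- the exponents
    have hjk : j < k := by
      have h1 : (κ : ℝ) + 1 ≤ D.nu X := by exact_mod_cast hlt
      have h2 : (j : ℝ) < k := by
        refine lt_of_le_of_lt ?_ (lt_of_lt_of_le hr hk)
        rw [hj]
        push_cast
        have h3 : ((a : ℝ) + 1) * κ ≤ ((a : ℝ) + 1) * ((D.nu X : ℝ) - 1) :=
          mul_le_mul_of_nonneg_left (by linarith) (by positivity)
        linarith
      exact_mod_cast h2
    -- the upper bound
    set B : ℝ := (A * (l : ℝ) ^ κ) ^ (a + 1) * (2 * (l : ℝ)) ^ (N + 1) with hB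
    have hup : ∀ m : ℕ, 2 ≤ m → c * (m : ℝ) ^ k ≤ B * (m : ℝ) ^ j := by
      intro m hm2
      have hlm : 2 ≤ l * m := le_trans hm2 (Nat.le_mul_of_pos_left m hl)
      refine le_trans (hm m (by omega)) ?_
      have h1 : (D.P X (l * m) : ℝ) ≤ A * (l : ℝ) ^ κ * (m : ℝ) ^ κ := by
        have := hA (l * m) (by omega)
        push_cast at this
        rw [mul_pow, ← mul_assoc] at this
        exact this
      have h2 : (D.P ex.curve (l * m) : ℝ) ≤ 2 * (l : ℝ) * (m : ℝ) := by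
        rw [ex.plurigenus_curve (l * m) hlm]
        have : ((2 * (l * m) - 1 : ℕ) : ℝ) ≤ ((2 * (l * m) : ℕ) : ℝ) := by
          exact_mod_cast Nat.sub_le _ _
        refine this.trans (le_of_eq ?_)
        push_cast
        ring
      calc ((D.P X (l * m) ^ (a + 1) * D.P ex.curve (l * m) ^ (N + 1) : ℕ) : ℝ)
          = (D.P X (l * m) : ℝ) ^ (a + 1) * (D.P ex.curve (l * m) : ℝ) ^ (N + 1) := by
            push_cast; rfl
        _ ≤ (A * (l : ℝ) ^ κ * (m : ℝ) ^ κ) ^ (a + 1) * (2 * (l : ℝ) * (m : ℝ)) ^ (N + 1) := by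
            refine mul_le_mul (pow_le_pow_left₀ (Nat.cast_nonneg _) h1 _)
              (pow_le_pow_left₀ (Nat.cast_nonneg _) h2 _) (by positivity) ?_
            exact pow_nonneg (le_trans (Nat.cast_nonneg _) h1) _
        _ = B * (m : ℝ) ^ j := by
            rw [hB, hj, mul_pow _ ((m : ℝ) ^ κ), mul_pow _ (m : ℝ), ← pow_mul, pow_add]
            ring
    -- a contradiction for large `m`
    obtain ⟨m, hm1⟩ := exists_nat_gt (B / c)
    have h3 := hup (m + 2) (by omega)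
    have hpos : (0 : ℝ) < ((m + 2 : ℕ) : ℝ) := by positivity
    obtain ⟨i, rfl⟩ : ∃ i, k = j + 1 + i := ⟨k - (j + 1), by omega⟩
    have h4 : c * ((m + 2 : ℕ) : ℝ) ≤ B := by
      have h5 : c * ((m + 2 : ℕ) : ℝ) * ((m + 2 : ℕ) : ℝ) ^ j ≤ B * ((m + 2 : ℕ) : ℝ) ^ j := by
        refine le_trans ?_ h3
        have h6 : (1 : ℝ) ≤ ((m + 2 : ℕ) : ℝ) ^ i :=
          one_le_pow₀ (by push_cast; linarith [Nat.cast_nonneg (α := ℝ) m])
        have h7 : 0 ≤ c * ((m + 2 : ℕ) : ℝ) * ((m + 2 : ℕ) : ℝ) ^ j := by positivity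
        have h9 : c * ((m + 2 : ℕ) : ℝ) ^ (j + 1 + i) =
            c * ((m + 2 : ℕ) : ℝ) * ((m + 2 : ℕ) : ℝ) ^ j * ((m + 2 : ℕ) : ℝ) ^ i := by
          rw [pow_add _ (j + 1) i, pow_succ _ j]
          ring
        rw [h9]
        exact le_mul_of_one_le_right h7 h6
      exact le_of_mul_le_mul_right h5 (by positivity)
    have h8 : B / c < ((m + 2 : ℕ) : ℝ) := by
      refine hm1.trans ?_
      push_cast
      linarith
    rw [div_lt_iff₀ hc] at h8
    linarith

theorem tfae (hD : Known D) (hI : IitakaTheorem D) {pr : Products D} (ex : Curve D pr) :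
    List.TFAE [∀ X : D.M, D.IsNef X → D.IsSemiample X,
      ∀ ε : ℝ, 0 < ε → ∃ C : ℝ, ∀ X : D.M, D.IsNef X →
        0 < (D.nu X : ℝ) - ε * D.dim X - C → KodGe D X ((D.nu X : ℝ) - ε * D.dim X - C),
      ∀ ε : ℝ, 0 < ε → ∃ C : ℝ, ∀ X : D.M, D.IsNef X → (1 - ε) * (D.dim X : ℝ) ≤ D.nu X →
        KodGe D X ((D.nu X : ℝ) - ε * ((D.dim X : ℝ) - D.nu X) - C)] := by
  tfae_have 1 → 2 := by
    intro h ε hε
    refine ⟨0, fun X hX _ => ⟨D.nu X, ?_, hD.grows X (h X hX)⟩⟩
    have : 0 ≤ ε * (D.dim X : ℝ) := by positivity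
    linarith
  tfae_have 1 → 3 := by
    intro h ε hε
    refine ⟨0, fun X hX _ => ⟨D.nu X, ?_, hD.grows X (h X hX)⟩⟩
    have h1 : (D.nu X : ℝ) ≤ D.dim X := by exact_mod_cast ex.nu_le X hX
    have : 0 ≤ ε * ((D.dim X : ℝ) - D.nu X) := mul_nonneg hε.le (by linarith)
    linarith
  tfae_have 2 → 1 := by
    intro h X hX
    apply hD.semiample X hX
    set n : ℝ := (D.dim X : ℝ) with hn
    have hn0 : 0 ≤ n := Nat.cast_nonneg _
    set ε : ℝ := 1 / (2 * (n + 1)) with hε
    have hε0 : 0 < ε := by positivity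
    have hεn : ε * n + ε = 1 / 2 := by rw [hε]; field_simp
    obtain ⟨C, hC⟩ := h ε hε0
    obtain ⟨t, ht⟩ := exists_nat_gt (2 * C)
    have hY := hC (pr.prod (pow pr X t) (pow pr ex.curve t))
      (pr.nef _ _ (nef_pow pr hX t) (nef_pow pr ex.nef_curve t))
    rw [pr.nu _ _ (nef_pow pr hX t) (nef_pow pr ex.nef_curve t), nu_pow pr hX, nu_pow pr ex.nef_curve,
      ex.dim_prod, dim_pow ex, dim_pow ex, ex.nu_curve, ex.dim_curve] at hY
    push_cast at hY
    rw [← hn] at hY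
    have hν : (0 : ℝ) ≤ D.nu X := Nat.cast_nonneg _
    have ht0 : (0 : ℝ) ≤ t := Nat.cast_nonneg _
    have e1 : ((t : ℝ) + 1) * (D.nu X : ℝ) + ((t : ℝ) + 1) * 1 -
        ε * (((t : ℝ) + 1) * n + ((t : ℝ) + 1) * 1) - C =
        ((t : ℝ) + 1) * (D.nu X : ℝ) + ((t : ℝ) + 1) - ((t : ℝ) + 1) * (ε * n + ε) - C := by ring
    rw [e1, hεn] at hY
    refine grows_of_prod hI ex t t (hY ?_) ?_
    · have : 0 ≤ ((t : ℝ) + 1) * (D.nu X : ℝ) := by positivity
      linarith
    · linarith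
  tfae_have 3 → 1 := by
    intro h X hX
    apply hD.semiample X hX
    set n : ℝ := (D.dim X : ℝ) with hn
    set ν : ℝ := (D.nu X : ℝ) with hν
    have hνn : ν ≤ n := by rw [hν, hn]; exact_mod_cast ex.nu_le X hX
    have hν0 : 0 ≤ ν := Nat.cast_nonneg _
    set ε : ℝ := 1 / (2 * (n - ν + 1)) with hε
    have hε0 : 0 < ε := by
      have : 0 < n - ν + 1 := by linarith
      positivity
    have hεn : ε * (n - ν) + ε = 1 / 2 := by
      have : n - ν + 1 ≠ 0 := by linarith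
      rw [hε]; field_simp
    obtain ⟨C, hC⟩ := h ε hε0
    obtain ⟨a, ha⟩ := exists_nat_gt (2 * C)
    obtain ⟨N, hN⟩ := exists_nat_gt (((a : ℝ) + 1) * n / ε)
    have hY := hC (pr.prod (pow pr X a) (pow pr ex.curve N))
      (pr.nef _ _ (nef_pow pr hX a) (nef_pow pr ex.nef_curve N))
    rw [pr.nu _ _ (nef_pow pr hX a) (nef_pow pr ex.nef_curve N), nu_pow pr hX, nu_pow pr ex.nef_curve,
      ex.dim_prod, dim_pow ex, dim_pow ex, ex.nu_curve, ex.dim_curve] at hY
    push_cast at hY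
    rw [← hn, ← hν] at hY
    have ha0 : (0 : ℝ) ≤ a := Nat.cast_nonneg _
    rw [div_lt_iff₀ hε0] at hN
    refine grows_of_prod hI ex a N (hY ?_) ?_
    · have : 0 ≤ ((a : ℝ) + 1) * ν := by positivity
      have h2 : 0 ≤ ε * (((a : ℝ) + 1) * n) := by
        have : 0 ≤ n := hν0.trans hνn
        positivity
      nlinarith
    · have e1 : ((a : ℝ) + 1) * ν + ((N : ℝ) + 1) * 1 -
          ε * (((a : ℝ) + 1) * n + ((N : ℝ) + 1) * 1 - (((a : ℝ) + 1) * ν + ((N : ℝ) + 1) * 1)) - C =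
          ((a : ℝ) + 1) * ν + ((N : ℝ) + 1) - ((a : ℝ) + 1) * (ε * (n - ν)) - C := by ring
      rw [e1]
      have h3 : ε * (n - ν) ≤ 1 / 2 := by linarith
      have h4 : ((a : ℝ) + 1) * (ε * (n - ν)) ≤ ((a : ℝ) + 1) * (1 / 2) :=
        mul_le_mul_of_nonneg_left h3 (by positivity)
      linarith
  tfae_finish

end Pool.Agent.TH613.AA
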